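import Pool.Agent.Q144.DSGeom

set_option autoImplicit false

/-!
# MP_ba10a5_co, Q1: there is a graph that is not 3-Tverberg

Points on the moment curve: two disjoint sets of points have intersecting convex hulls exactly when
they alternate at least five times. If a bipartite graph with both sides of size `n = 8192` is
partition induced on such a set, the colour word restricted to each side has only `O(n log n)`
blocks, hence the graph is coded by a word of length at most `264 n`; there are fewer such words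
than bipartite graphs.
-/

namespace Pool.Agent.Results.MP_ba10a5_co.NotThreeTverberg

/-- finitely many points of `d`-space are in general position: no `d + 1` of them lie on a common
affine hyperplane -/
def GenPos {d : ℕ} (S : Finset (EuclideanSpace ℝ (Fin d))) : Prop :=
  ∀ (v : EuclideanSpace ℝ (Fin d)) (c : ℝ), v ≠ 0 →
    ∀ T : Finset (EuclideanSpace ℝ (Fin d)), T ⊆ S → (∀ p ∈ T, inner ℝ v p = c) → T.card ≤ d

/-- convex hull of the class of `v` in the partition of `S` given by `f` -/
def hull {d : ℕ} {V : Type} (S : Finset (EuclideanSpace ℝ (Fin d)))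
    (f : EuclideanSpace ℝ (Fin d) → V) (v : V) : Set (EuclideanSpace ℝ (Fin d)) :=
  convexHull ℝ {p | p ∈ S ∧ f p = v}

/-- the graph `G` is partition induced on `S`: the points of `S` are partitioned into nonempty
classes indexed by the vertices, two hulls meet if and only if the vertices are adjacent, and no
three hulls have a common point -/
def Induced {V : Type} (G : SimpleGraph V) {d : ℕ} (S : Finset (EuclideanSpace ℝ (Fin d))) :
    Prop :=
  ∃ f : EuclideanSpace ℝ (Fin d) → V, (∀ v, ∃ p ∈ S, f p = v) ∧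
    (∀ u v, u ≠ v → ((hull S f u ∩ hull S f v).Nonempty ↔ G.Adj u v)) ∧
    (∀ u v w, u ≠ v → u ≠ w → v ≠ w → hull S f u ∩ hull S f v ∩ hull S f w = ∅)

/-- `G` is `d`-Tverberg -/
def IsTverberg {V : Type} (G : SimpleGraph V) (d : ℕ) : Prop :=
  ∃ c : ℕ, ∀ S : Finset (EuclideanSpace ℝ (Fin d)), GenPos S → c < S.card → Induced G S

open Q144.DS List

theorem mc_injective : Function.Injective mc := by
  intro a b h
  have h0 : (mc a) 0 = (mc b) 0 := by rw [h]
  have : (a : ℝ) = b := h0
  exact_mod_cast this

open Classical in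
/-- the points of the moment curve with parameters below `N` -/
noncomputable def pts (N : ℕ) : Finset E3 := (Finset.range N).image mc

theorem card_pts (N : ℕ) : (pts N).card = N := by
  classical
  unfold pts
  rw [Finset.card_image_of_injective _ mc_injective, Finset.card_range]

theorem genPos_pts (N : ℕ) : GenPos (pts N) := by
  classical
  intro v c hv T hT hc
  set P : Polynomial ℝ := Polynomial.C (-c) + Polynomial.C (v 0) * Polynomial.X +
    Polynomial.C (v 1) * Polynomial.X ^ 2 + Polynomial.C (v 2) * Polynomial.X ^ 3 with hP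
  have hP0 : P ≠ 0 := by
    intro h0
    apply hv
    have h1 : P.coeff 1 = v 0 := by
      rw [hP]; simp [Polynomial.coeff_X, Polynomial.coeff_C]
    have h2 : P.coeff 2 = v 1 := by
      rw [hP]; simp [Polynomial.coeff_X, Polynomial.coeff_C]
    have h3 : P.coeff 3 = v 2 := by
      rw [hP]; simp [Polynomial.coeff_X, Polynomial.coeff_C]
    rw [h0, Polynomial.coeff_zero] at h1 h2 h3
    ext i
    fin_cases i
    · exact h1.symm
    · exact h2.symm
    · exact h3.symm
  have hdeg : P.natDegree ≤ 3 := by
    rw [hP]; compute_degree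
  have hmaps : T.card ≤ P.roots.toFinset.card := by
    apply Finset.card_le_card_of_injOn (fun p => p 0)
    · intro p hp
      obtain ⟨k, -, rfl⟩ := Finset.mem_image.1 (hT hp)
      have h1 := hc _ hp
      simp only [Finset.mem_coe, Multiset.mem_toFinset]
      rw [Polynomial.mem_roots hP0, Polynomial.IsRoot.def, hP]
      simp only [Polynomial.eval_add, Polynomial.eval_mul, Polynomial.eval_C, Polynomial.eval_X,
        Polynomial.eval_pow]
      rw [PiLp.inner_apply, Fin.sum_univ_three] at h1
      simp only [mc, RCLike.inner_apply, conj_trivial] at h1 ⊢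
      simp at h1 ⊢
      linarith
    · intro p hp q hq hpq
      obtain ⟨k, -, rfl⟩ := Finset.mem_image.1 (hT hp)
      obtain ⟨l, -, rfl⟩ := Finset.mem_image.1 (hT hq)
      have : (k : ℝ) = l := hpq
      have h2 : k = l := by exact_mod_cast this
      rw [h2]
  exact hmaps.trans ((Multiset.toFinset_card_le _).trans ((Polynomial.card_roots' P).trans hdeg))

theorem sub_iff {V : Type} (N : ℕ) (g : ℕ → V) (u v : V) :
    [u, v, u, v, u] <+ (List.range N).map g ↔
      Pat {i | i < N ∧ g i = u} {i | i < N ∧ g i = v} := by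
  constructor
  · intro h
    rw [sublist_map_iff] at h
    obtain ⟨l, hl, hlm⟩ := h
    have hlen : l.length = 5 := by
      have := congrArg List.length hlm
      simpa using this.symm
    match l, hlen, hl, hlm with
    | [a1, b1, a2, b2, a3], _, hl, hlm =>
      have hpw := (pairwise_lt_range (n := N)).sublist hl
      have hmem : ∀ x ∈ [a1, b1, a2, b2, a3], x < N := fun x hx => mem_range.1 (hl.subset hx)
      simp at hlm hpw
      refine ⟨a1, ⟨hmem a1 (by simp), hlm.1.symm⟩, b1, ⟨hmem b1 (by simp), hlm.2.1.symm⟩,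
        a2, ⟨hmem a2 (by simp), hlm.2.2.1.symm⟩, b2, ⟨hmem b2 (by simp), hlm.2.2.2.1.symm⟩,
        a3, ⟨hmem a3 (by simp), hlm.2.2.2.2.symm⟩, ?_, ?_, ?_, ?_⟩
      · exact hpw.1.1
      · exact hpw.2.1.1
      · exact hpw.2.2.1.1
      · exact hpw.2.2.2
  · rintro ⟨a1, ⟨ha1, ga1⟩, b1, ⟨hb1, gb1⟩, a2, ⟨ha2, ga2⟩, b2, ⟨hb2, gb2⟩, a3, ⟨ha3, ga3⟩,
      h1, h2, h3, h4⟩
    rw [sublist_map_iff]
    refine ⟨[a1, b1, a2, b2, a3], ?_, by simp [ga1, gb1, ga2, gb2, ga3]⟩
    have hpw : [a1, b1, a2, b2, a3].Pairwise (· < ·) := by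
      simp; omega
    have hnd : [a1, b1, a2, b2, a3].Nodup := hpw.imp (fun h => ne_of_lt h)
    have hss : [a1, b1, a2, b2, a3] ⊆ List.range N := by
      intro x hx
      rw [mem_range]
      simp at hx
      omega
    exact sublist_of_subperm_of_pairwise (r := (· < ·)) (hnd.subperm hss) hpw pairwise_lt_range

/-- the bipartite graph of a matrix -/
def bip {n : ℕ} (M : Fin n → Fin n → Bool) : SimpleGraph (Fin n ⊕ Fin n) where
  Adj
    | Sum.inl i, Sum.inr j => M i j = true
    | Sum.inr j, Sum.inl i => M i j = true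
    | _, _ => False
  symm := ⟨by
    rintro (i | i) (j | j) h
    · exact h
    · exact h
    · exact h
    · exact h⟩
  loopless := ⟨by
    rintro (i | i) h
    · exact h
    · exact h⟩

theorem hull_eq {V : Type} (N : ℕ) (f : E3 → V) (v : V) :
    hull (pts N) f v = convexHull ℝ (mc '' {i | i < N ∧ f (mc i) = v}) := by
  classical
  unfold hull pts
  congr 1
  ext p
  constructor
  · rintro ⟨h1, h2⟩
    obtain ⟨k, hk, rfl⟩ := Finset.mem_image.1 h1
    exact ⟨k, ⟨Finset.mem_range.1 hk, h2⟩, rfl⟩
  · rintro ⟨k, ⟨hk, h2⟩, rfl⟩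
    exact ⟨Finset.mem_image_of_mem _ (Finset.mem_range.2 hk), h2⟩

/-- **Q1: yes**, some finite graph is not 3-Tverberg. -/
theorem result : ∃ (V : Type) (_ : Fintype V) (G : SimpleGraph V), ¬ IsTverberg G 3 := by
  obtain ⟨M, hM⟩ := exists_bad
  refine ⟨Fin 8192 ⊕ Fin 8192, inferInstance, bip M, ?_⟩
  rintro ⟨c, hc⟩
  obtain ⟨f, -, hadj, -⟩ := hc (pts (c + 1)) (genPos_pts _) (by rw [card_pts]; omega)
  set w := (List.range (c + 1)).map (fun i => f (mc i)) with hw
  have hdis : ∀ u v : Fin 8192 ⊕ Fin 8192, u ≠ v →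
      Disjoint {i | i < c + 1 ∧ f (mc i) = u} {i | i < c + 1 ∧ f (mc i) = v} := by
    intro u v huv
    rw [Set.disjoint_left]
    rintro i ⟨-, h1⟩ ⟨-, h2⟩
    exact huv (h1.symm.trans h2)
  have hiff : ∀ u v : Fin 8192 ⊕ Fin 8192, u ≠ v → ((bip M).Adj u v ↔
      ([u, v, u, v, u] <+ w ∨ [v, u, v, u, v] <+ w)) := by
    intro u v huv
    rw [← hadj u v huv, hull_eq, hull_eq, hw, sub_iff, sub_iff]
    constructor
    · exact pat_of_meet _ _ (hdis u v huv)
    · rintro (h | h)
      · exact meet_of_pat _ _ h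
      · rw [Set.inter_comm]; exact meet_of_pat _ _ h
  apply hM w
  · constructor
    · intro i j hij hs
      have h1 : (Sum.inl i : Fin 8192 ⊕ Fin 8192) ≠ Sum.inl j :=
        fun h => hij (Sum.inl_injective h).symm
      exact (hiff _ _ h1).2 (Or.inl hs)
    · intro i j hij hs
      have h1 : (Sum.inr i : Fin 8192 ⊕ Fin 8192) ≠ Sum.inr j :=
        fun h => hij (Sum.inr_injective h).symm
      exact (hiff _ _ h1).2 (Or.inl hs)
  · intro i j
    exact hiff (Sum.inl i) (Sum.inr j) (by simp)

end Pool.Agent.Results.MP_ba10a5_co.NotThreeTverberg
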